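import Pool.Agent.K1H14.SD.Stm

set_option autoImplicit false

/-! Project SD, pieces S_AVG (averaging and expansion) and S_PRM (the algebra is prime). -/

namespace Pool.Agent.K1H85.SD

open Pool.Agent.K1H14.SD Finset

open scoped symmDiff

universe u

/-- parity of symmetric differences -/
theorem even_symmDiff {d : ℕ} {K L : Finset (Fin d)} (hK : Even K.card) (hL : Even L.card) :
    Even (K ∆ L).card := by
  have h1 : (K ∆ L).card = (K \ L).card + (L \ K).card := by
    rw [symmDiff_def, sup_eq_union]
    exact card_union_of_disjoint disjoint_sdiff_sdiff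
  have h2 := card_sdiff_add_card_inter K L
  have h3 := card_sdiff_add_card_inter L K
  rw [inter_comm L K] at h3
  rw [← h2] at hK
  rw [← h3] at hL
  rw [h1]
  rw [Nat.even_add] at *
  tauto

theorem mem_evs {d : ℕ} {K : Finset (Fin d)} : K ∈ evs d ↔ Even K.card := by
  simp [evs]

/-- the number of the even subsets -/
theorem card_evs {d : ℕ} (hd : 0 < d) : (evs d).card = 2 ^ (d - 1) := by
  have h1 : ((univ : Finset (Finset (Fin d))).filter fun K => Even K.card).card =
      ((univ : Finset (Finset (Fin d))).filter fun K => ¬ Even K.card).card := by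
    refine card_bij (fun K _ => K ∆ {⟨0, hd⟩}) ?_ ?_ ?_
    · intro K hK
      rw [mem_filter] at hK ⊢
      refine ⟨mem_univ _, ?_⟩
      intro hev
      have h3 : (K ∆ {⟨0, hd⟩}).card + 1 = K.card ∨ (K ∆ {⟨0, hd⟩}).card = K.card + 1 := by
        by_cases h0 : (⟨0, hd⟩ : Fin d) ∈ K
        · left
          have : K ∆ {⟨0, hd⟩} = K.erase ⟨0, hd⟩ := by
            ext x
            rw [mem_symmDiff, mem_singleton, mem_erase]
            constructor
            · rintro (⟨hx, hn⟩ | ⟨rfl, hn⟩)
              · exact ⟨hn, hx⟩
              · exact absurd h0 hn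
            · rintro ⟨hn, hx⟩
              exact Or.inl ⟨hx, hn⟩
          rw [this]
          exact card_erase_add_one h0
        · right
          have : K ∆ {⟨0, hd⟩} = insert ⟨0, hd⟩ K := by
            ext x
            rw [mem_symmDiff, mem_singleton, mem_insert]
            constructor
            · rintro (⟨hx, hn⟩ | ⟨rfl, hn⟩)
              · exact Or.inr hx
              · exact Or.inl rfl
            · rintro (rfl | hx)
              · exact Or.inr ⟨rfl, h0⟩
              · exact Or.inl ⟨hx, fun h => h0 (h ▸ hx)⟩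
          rw [this]
          exact card_insert_of_notMem h0
      have h4 := hK.2
      rw [Nat.even_iff] at h4 hev
      omega
    · intro K _ L _ h
      have := congrArg (fun X => X ∆ {⟨0, hd⟩}) h
      simpa [symmDiff_assoc] using this
    · intro L hL
      rw [mem_filter] at hL
      refine ⟨L ∆ {⟨0, hd⟩}, ?_, by simp⟩
      rw [mem_filter]
      refine ⟨mem_univ _, ?_⟩
      have h3 : (L ∆ {⟨0, hd⟩}).card + 1 = L.card ∨ (L ∆ {⟨0, hd⟩}).card = L.card + 1 := by
        by_cases h0 : (⟨0, hd⟩ : Fin d) ∈ L
        · left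
          have : L ∆ {⟨0, hd⟩} = L.erase ⟨0, hd⟩ := by
            ext x
            rw [mem_symmDiff, mem_singleton, mem_erase]
            constructor
            · rintro (⟨hx, hn⟩ | ⟨rfl, hn⟩)
              · exact ⟨hn, hx⟩
              · exact absurd h0 hn
            · rintro ⟨hn, hx⟩
              exact Or.inl ⟨hx, hn⟩
          rw [this]
          exact card_erase_add_one h0
        · right
          have : L ∆ {⟨0, hd⟩} = insert ⟨0, hd⟩ L := by
            ext x
            rw [mem_symmDiff, mem_singleton, mem_insert]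
            constructor
            · rintro (⟨hx, hn⟩ | ⟨rfl, hn⟩)
              · exact Or.inr hx
              · exact Or.inl rfl
            · rintro (rfl | hx)
              · exact Or.inr ⟨rfl, h0⟩
              · exact Or.inl ⟨hx, fun h => h0 (h ▸ hx)⟩
          rw [this]
          exact card_insert_of_notMem h0
      have h4 := hL.2
      rw [Nat.not_even_iff] at h4
      rw [Nat.even_iff]
      omega
  have h2 := card_filter_add_card_filter_not (s := (univ : Finset (Finset (Fin d))))
    (fun K => Even K.card)
  rw [← h1, card_univ, Fintype.card_finset, Fintype.card_fin] at h2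
  have h5 : (2 : ℕ) ^ d = 2 * 2 ^ (d - 1) := by
    rw [← pow_succ', Nat.sub_add_cancel hd]
  unfold evs
  omega

section main

variable {A : Type u} [Ring A] [Algebra ℂ A] {d : ℕ} {M : Finset (Fin d) → A} {st : A →ₗ[ℂ] A}

theorem M_mul_st (hE : EvenCl M st) {K : Finset (Fin d)} (hK : Even K.card) :
    M K * st (M K) = 1 := by
  have h1 := hE.st_inv K hK
  rw [hE.st_M K hK] at h1 ⊢
  rw [mul_smul_comm]
  rw [smul_mul_assoc] at h1
  exact h1

/-- `M K * M L * st (M K) = ± M L` -/
theorem conj_M (hE : EvenCl M st) {K L : Finset (Fin d)} (hK : Even K.card) (hL : Even L.card) :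
    M K * M L * st (M K) = (-1 : ℂ) ^ (K ∩ L).card • M L := by
  rw [hE.comm K L hK hL, smul_mul_assoc, mul_assoc, M_mul_st hE hK, mul_one]

/-- an involution changing the sign -/
theorem sum_sign (hd : Odd d) {L : Finset (Fin d)} (hL : Even L.card) (hne : L ≠ ∅) :
    ∑ K ∈ evs d, (-1 : ℂ) ^ (K ∩ L).card = 0 := by
  obtain ⟨i, hi⟩ := nonempty_iff_ne_empty.mpr hne
  have hnu : ∃ j, j ∉ L := by
    by_contra hcon
    push Not at hcon
    have : L = univ := eq_univ_iff_forall.mpr hcon
    rw [this, card_univ, Fintype.card_fin] at hL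
    exact (Nat.not_even_iff_odd.mpr hd) hL
  obtain ⟨j, hj⟩ := hnu
  have hij : i ≠ j := fun h => hj (h ▸ hi)
  have hpair : Even ({i, j} : Finset (Fin d)).card := by
    rw [card_pair hij]
    exact even_two
  refine sum_involution (fun K _ => K ∆ {i, j}) ?_ ?_ ?_ ?_
  · intro K _
    have h1 : ((K ∆ {i, j}) ∩ L).card + 1 = (K ∩ L).card ∨
        ((K ∆ {i, j}) ∩ L).card = (K ∩ L).card + 1 := by
      by_cases h0 : i ∈ K
      · left
        have : (K ∆ {i, j}) ∩ L = (K ∩ L).erase i := by
          ext x
          simp only [mem_inter, mem_symmDiff, mem_insert, mem_singleton, mem_erase]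
          constructor
          · rintro ⟨(⟨hx, hn⟩ | ⟨rfl | rfl, hn⟩), hxL⟩
            · exact ⟨fun h => hn (Or.inl h), hx, hxL⟩
            · exact absurd h0 hn
            · exact absurd hxL hj
          · rintro ⟨hn, hx, hxL⟩
            refine ⟨Or.inl ⟨hx, ?_⟩, hxL⟩
            rintro (rfl | rfl)
            · exact hn rfl
            · exact hj hxL
        rw [this]
        exact card_erase_add_one (mem_inter.mpr ⟨h0, hi⟩)
      · right
        have : (K ∆ {i, j}) ∩ L = insert i (K ∩ L) := by
          ext x
          simp only [mem_inter, mem_symmDiff, mem_insert, mem_singleton]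
          constructor
          · rintro ⟨(⟨hx, hn⟩ | ⟨rfl | rfl, hn⟩), hxL⟩
            · exact Or.inr ⟨hx, hxL⟩
            · exact Or.inl rfl
            · exact absurd hxL hj
          · rintro (rfl | ⟨hx, hxL⟩)
            · exact ⟨Or.inr ⟨Or.inl rfl, h0⟩, hi⟩
            · refine ⟨Or.inl ⟨hx, ?_⟩, hxL⟩
              rintro (rfl | rfl)
              · exact h0 hx
              · exact hj hxL
        rw [this]
        exact card_insert_of_notMem (fun h => h0 (mem_inter.mp h).1)
    rcases h1 with h1 | h1
    · rw [← h1, pow_succ]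
      ring
    · rw [h1, pow_succ]
      ring
  · intro K _ hne0 heq
    have h2 : K ∆ (K ∆ {i, j}) = K ∆ K := by rw [heq]
    rw [symmDiff_symmDiff_cancel_left, symmDiff_self] at h2
    have : i ∈ (⊥ : Finset (Fin d)) := h2 ▸ mem_insert_self i {j}
    exact absurd this (notMem_empty i)
  · intro K hK
    rw [mem_evs] at hK ⊢
    exact even_symmDiff hK hpair
  · intro K _
    exact symmDiff_symmDiff_cancel_right {i, j} K

theorem t_AVG : S_AVG.{u} := by
  intro A _ _ d M st tr hE hT
  have hd := hE.odd
  constructor
  · intro x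
    have hx := hE.span x
    induction hx using Submodule.span_induction with
    | mem x hx =>
      obtain ⟨L, hL, rfl⟩ := hx
      have h1 : ∀ K ∈ evs d, M K * M L * st (M K) = (-1 : ℂ) ^ (K ∩ L).card • M L :=
        fun K hK => conj_M hE (mem_evs.mp hK) hL
      rw [sum_congr rfl h1, ← sum_smul, hT.1 L hL]
      by_cases h0 : L = ∅
      · subst h0
        rw [if_pos rfl, hE.one]
        congr 1
        rw [sum_congr rfl (fun K _ => by rw [inter_empty, card_empty, pow_zero]), sum_const,
          card_evs hd.pos]
        simp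
      · rw [if_neg h0, sum_sign hd hL h0, mul_zero, zero_smul, zero_smul]
    | zero => simp
    | add x y _ _ hx hy =>
      have h1 : ∀ K ∈ evs d, M K * (x + y) * st (M K) =
          M K * x * st (M K) + M K * y * st (M K) := fun K _ => by rw [mul_add, add_mul]
      rw [sum_congr rfl h1, sum_add_distrib, hx, hy, map_add, mul_add, add_smul]
    | smul c x _ hx =>
      have h1 : ∀ K ∈ evs d, M K * (c • x) * st (M K) = c • (M K * x * st (M K)) :=
        fun K _ => by rw [mul_smul_comm, smul_mul_assoc]
      rw [sum_congr rfl h1, ← smul_sum, hx, map_smul, smul_eq_mul, smul_smul]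
      congr 1
      ring
  · intro x
    have hx := hE.span x
    induction hx using Submodule.span_induction with
    | mem x hx =>
      obtain ⟨L, hL, rfl⟩ := hx
      rw [sum_eq_single_of_mem L (mem_evs.mpr hL)]
      · have h2 : tr (st (M L) * M L) = 1 := by
          rw [hE.st_inv L hL, ← hE.one, hT.1 ∅ (by simp), if_pos rfl]
        rw [h2, one_smul]
      · intro K hK hne
        have hK' := mem_evs.mp hK
        obtain ⟨ε, -, hε⟩ := hE.mul K L hK' hL
        rw [hE.st_M K hK', smul_mul_assoc, hε, map_smul, map_smul, hT.1 _ (even_symmDiff hK' hL),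
          if_neg, smul_zero, smul_zero, zero_smul]
        intro h0
        exact hne (symmDiff_eq_bot.mp h0)
    | zero => simp
    | add x y _ _ hx hy =>
      have h1 : ∀ K ∈ evs d, tr (st (M K) * (x + y)) • M K =
          tr (st (M K) * x) • M K + tr (st (M K) * y) • M K :=
        fun K _ => by rw [mul_add, map_add, add_smul]
      rw [sum_congr rfl h1, sum_add_distrib, ← hx, ← hy]
    | smul c x _ hx =>
      have h1 : ∀ K ∈ evs d, tr (st (M K) * (c • x)) • M K = c • (tr (st (M K) * x) • M K) :=
        fun K _ => by rw [mul_smul_comm, map_smul, smul_assoc]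
      rw [sum_congr rfl h1, ← smul_sum, ← hx]

theorem t_PRM (h1 : S_TR.{u}) (h2 : S_AVG.{u}) : S_PRM.{u} := by
  intro A _ _ d M st hE a b hab
  obtain ⟨-, tr, hT⟩ := h1 M st hE
  obtain ⟨hA1, hA2⟩ := h2 M st tr hE hT
  by_cases hb : b = 0
  · exact Or.inr hb
  left
  have hst : ∀ K : Finset (Fin d), Even K.card → a * st (M K) * b = 0 := by
    intro K hK
    rw [hE.st_M K hK, mul_smul_comm, smul_mul_assoc, hab K hK, smul_zero]
  have htr : ∀ y, tr (y * a) = 0 := by
    intro y
    have h3 := congrArg (fun z => z * b) (hA1 (y * a))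
    simp only [sum_mul, smul_mul_assoc, one_mul] at h3
    have h4 : ∑ K ∈ evs d, M K * (y * a) * st (M K) * b = 0 := by
      refine sum_eq_zero fun K hK => ?_
      have h5 := hst K (mem_evs.mp hK)
      have h6 : M K * (y * a) * st (M K) * b = M K * y * (a * st (M K) * b) := by
        simp only [mul_assoc]
      rw [h6, h5, mul_zero]
    rw [h4] at h3
    have h7 := smul_eq_zero.mp h3.symm
    rcases h7 with h7 | h7
    · rcases mul_eq_zero.mp h7 with h8 | h8
      · exact absurd h8 (pow_ne_zero _ two_ne_zero)
      · exact h8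
    · exact absurd h7 hb
  rw [hA2 a]
  refine sum_eq_zero fun K _ => ?_
  rw [htr, zero_smul]

end main

end Pool.Agent.K1H85.SD
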